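import Mathlib

/-!
# Long-range percolation on a group: definitions

Generating measures, the random multigraph `Γ_μ(lam)` and its critical parameter.
-/

open MeasureTheory ProbabilityTheory
open scoped ENNReal NNReal

namespace Pool.Agent.LongRange

/-- The unordered pairs of distinct elements of `V`. -/
abbrev Pair (V : Type*) := {e : Sym2 V // ¬ e.IsDiag}

/-- The simple graph underlying a multigraph on `V`, where `ω e` is the number of parallel edges
joining the two elements of the pair `e`: two distinct vertices are adjacent when at least one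
edge joins them. -/
def openGraph {V : Type*} (ω : Pair V → ℕ) : SimpleGraph V where
  Adj x y := ∃ h : ¬ (s(x, y) : Sym2 V).IsDiag, ω ⟨s(x, y), h⟩ ≠ 0
  symm := ⟨by
    rintro x y ⟨h, hω⟩
    have h' : ¬ (s(y, x) : Sym2 V).IsDiag := by rw [Sym2.eq_swap]; exact h
    refine ⟨h', ?_⟩
    have : (⟨s(y, x), h'⟩ : Pair V) = ⟨s(x, y), h⟩ := Subtype.ext Sym2.eq_swap
    rw [this]; exact hω⟩
  loopless := ⟨by rintro x ⟨h, _⟩; exact h rfl⟩

/-- A generating measure on a group `Γ`: a probability measure on `Γ` (given by its mass
function) which is symmetric, `μ(g) = μ(g⁻¹)`, and whose support generates `Γ` as a group. -/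
structure GeneratingMeasure (Γ : Type*) [Group Γ] where
  /-- the mass function of the probability measure -/
  mass : PMF Γ
  symmetric : ∀ g : Γ, mass g = mass g⁻¹
  generates : Subgroup.closure mass.support = ⊤

/-- The number `μ(g⁻¹ h)` attached to the unordered pair `{g, h}` (well defined as `μ` is
symmetric). -/
noncomputable def weight {Γ : Type*} [Group Γ] (μ : GeneratingMeasure Γ) : Sym2 Γ → ℝ≥0 :=
  Sym2.lift ⟨fun g h => (μ.mass (g⁻¹ * h)).toNNReal, by
    intro g h
    show (μ.mass (g⁻¹ * h)).toNNReal = (μ.mass (h⁻¹ * g)).toNNReal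
    rw [μ.symmetric (g⁻¹ * h), mul_inv_rev, inv_inv]⟩

/-- The law of the random multigraph `Γ_μ(lam)`: the numbers of parallel edges of the pairs of
distinct elements `{g, h}` are independent, and Poisson with mean `lam * μ(g⁻¹ h)`. -/
noncomputable def percLaw {Γ : Type*} [Group Γ] (μ : GeneratingMeasure Γ) (lam : ℝ≥0) :
    Measure (Pair Γ → ℕ) :=
  Measure.infinitePi fun e => poissonMeasure (lam * weight μ e.1)

/-- The event that the random multigraph has an infinite connected component. -/
def infiniteComponent (Γ : Type*) : Set (Pair Γ → ℕ) :=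
  {ω | ∃ c : (openGraph ω).ConnectedComponent, c.supp.Infinite}

/-- The critical parameter: the supremum, in `[0, ∞]`, of all real `lam > 0` for which
`Γ_μ(lam)` has an infinite component with probability zero. -/
noncomputable def lambdaC {Γ : Type*} [Group Γ] (μ : GeneratingMeasure Γ) : ℝ≥0∞ :=
  sSup {x : ℝ≥0∞ | ∃ lam : ℝ≥0, 0 < lam ∧ percLaw μ lam (infiniteComponent Γ) = 0 ∧ x = lam}

end Pool.Agent.LongRange
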