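import Pool.Agent.LongRange.Defs

/-!
# Every countably infinite group admits a long-range percolation with a finite threshold

The file answers Q1 positively, for every countably infinite group `Γ`, by a direct
multi-scale construction which does not use any theorem on Cayley graphs.

Sketch of the proof.  Choose finite windows `K_0 = {1} ⊆ K_1 ⊆ ...` and, for every `n`, a set
`B_n` of `4 (n + 2)` generic elements of `Γ` such that the double products `K_n b K_n`,
`b ∈ B_n`, are disjoint from each other and from `K_n`; put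
`K_{n+1} = K_n ∪ ⋃_b K_n b K_n`.  The measure `μ` is proportional to a symmetric, everywhere
positive summable weight which gives weight at least `2^{-n}` to every `b ∈ B_n`.  For large
`lam`, each pair `{x, x b}`, `b ∈ B_n`, is then open with probability at least
`1 - exp (-2^{-n})`.  Let `E_n(g)` be the event that the cluster of `g` inside `g K_n` has at
least `2^n` vertices.  Given this cluster, for each `b ∈ B_n` it is joined by an edge of
label `b` to a point `y` for which `E_n(y)` holds with probability at least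
`(1 - 1/e) P(E_n)`, independently for distinct `b`; when this happens for one `b`,
`E_{n+1}(g)` holds.  Hence `P(E_{n+1}) ≥ P(E_n) - 2^{-n-2}`, and `P(E_n) ≥ 1/2` for all `n`.
-/

open MeasureTheory ProbabilityTheory
open scoped ENNReal NNReal

namespace Pool.Agent.LongRange

/-! ## Independence of events depending on disjoint finite sets of pairs -/

section indep
variable {ι : Type*} (ν : ι → Measure ℕ) [∀ i, IsProbabilityMeasure (ν i)]

lemma exists_preimage_of_dep {A : Set (ι → ℕ)} {S : Finset ι}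
    (hA : DependsOn (fun ω => ω ∈ A) (S : Set ι)) :
    ∃ B : Set (S → ℕ), A = (fun (ω : ι → ℕ) (i : S) => ω i) ⁻¹' B := by
  classical
  refine ⟨{η | ∃ ω ∈ A, ∀ i : S, ω i = η i}, ?_⟩
  ext ω
  constructor
  · intro h
    exact ⟨ω, h, fun _ => rfl⟩
  · rintro ⟨ω', hω', h⟩
    have := hA (x := ω') (y := ω) (fun i hi => h ⟨i, hi⟩)
    exact this.mp hω'

lemma measurableSet_of_dep {A : Set (ι → ℕ)} {S : Set ι} (hS : S.Finite)
    (hA : DependsOn (fun ω => ω ∈ A) S) : MeasurableSet A := by
  classical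
  obtain ⟨B, rfl⟩ := exists_preimage_of_dep (S := hS.toFinset) (A := A) (by simpa using hA)
  have hm : Measurable (fun (ω : ι → ℕ) (i : hS.toFinset) => ω i) := by fun_prop
  exact hm (Set.to_countable B).measurableSet

lemma indep_of_dep {A B : Set (ι → ℕ)} {S T : Set ι} (hS : S.Finite) (hT : T.Finite)
    (hST : Disjoint S T)
    (hA : DependsOn (fun ω => ω ∈ A) S) (hB : DependsOn (fun ω => ω ∈ B) T) :
    (Measure.infinitePi ν).real (A ∩ B)
      = (Measure.infinitePi ν).real A * (Measure.infinitePi ν).real B := by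
  classical
  obtain ⟨A', rfl⟩ := exists_preimage_of_dep (S := hS.toFinset) (A := A) (by simpa using hA)
  obtain ⟨B', rfl⟩ := exists_preimage_of_dep (S := hT.toFinset) (A := B) (by simpa using hB)
  have hind : iIndepFun (fun (i : ι) (ω : ι → ℕ) => ω i) (Measure.infinitePi ν) :=
    iIndepFun_infinitePi (X := fun i (x : ℕ) => x) (fun i => measurable_id)
  have h2 := hind.indepFun_finset hS.toFinset hT.toFinset
    (by simpa using hST) (fun i => measurable_pi_apply i)
  have h3 := h2.measure_inter_preimage_eq_mul A' B' (Set.to_countable _).measurableSet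
    (Set.to_countable _).measurableSet
  simp only [Measure.real]
  rw [← ENNReal.toReal_mul]
  exact congrArg _ h3

end indep

/-! ## Clusters restricted to a window -/

section graph
variable {V : Type*}

/-- vertices joined to `g` by an open path inside `K` -/
def clus (K : Set V) (g : V) (ω : Pair V → ℕ) : Set V :=
  {y | Relation.ReflTransGen (fun a b => a ∈ K ∧ b ∈ K ∧ (openGraph ω).Adj a b) g y}

/-- pairs both of whose elements are in `K` -/
def inside (K : Set V) : Set (Pair V) := {e | ∀ x ∈ e.1, x ∈ K}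

lemma inside_mono {K K' : Set V} (h : K ⊆ K') : inside K ⊆ inside K' :=
  fun _ he x hx => h (he x hx)

lemma inside_finite {K : Set V} (hK : K.Finite) : (inside K).Finite := by
  have h1 : ((fun e : Pair V => e.1) '' inside K).Finite := by
    apply Set.Finite.subset ((hK.prod hK).image (fun p : V × V => s(p.1, p.2)))
    rintro _ ⟨e, he, rfl⟩
    rcases e with ⟨e, hd⟩
    induction e using Sym2.inductionOn with
    | hf x y =>
      exact ⟨(x, y), ⟨he x (by simp), he y (by simp)⟩, rfl⟩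
  exact Set.Finite.of_finite_image h1 (Subtype.val_injective.injOn)

lemma adj_congr (u v : V) {ω ω' : Pair V → ℕ} (h : ∀ e : Pair V, e.1 = s(u, v) → ω e = ω' e) :
    (openGraph ω).Adj u v ↔ (openGraph ω').Adj u v := by
  constructor
  · rintro ⟨hd, hω⟩
    exact ⟨hd, by rw [← h ⟨s(u, v), hd⟩ rfl]; exact hω⟩
  · rintro ⟨hd, hω⟩
    exact ⟨hd, by rw [h ⟨s(u, v), hd⟩ rfl]; exact hω⟩

lemma adj_dep (u v : V) :
    DependsOn (fun ω => ω ∈ {ω : Pair V → ℕ | (openGraph ω).Adj u v}) {e | e.1 = s(u, v)} :=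
  fun _ _ h => propext (adj_congr u v (fun e he => h e he))

lemma clus_dep (K : Set V) (g : V) : DependsOn (clus K g) (inside K) := by
  intro ω ω' h
  have : (fun a b => a ∈ K ∧ b ∈ K ∧ (openGraph ω).Adj a b)
      = (fun a b => a ∈ K ∧ b ∈ K ∧ (openGraph ω').Adj a b) := by
    funext a b
    by_cases ha : a ∈ K
    · by_cases hb : b ∈ K
      · have := adj_congr a b (ω := ω) (ω' := ω') (fun e he => h e (by
          intro x hx
          rw [he, Sym2.mem_iff] at hx
          rcases hx with rfl | rfl <;> assumption))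
        rw [this]
      · simp [hb]
    · simp [ha]
  unfold clus
  rw [this]

lemma clus_subset {K : Set V} {g : V} (hg : g ∈ K) (ω : Pair V → ℕ) : clus K g ω ⊆ K := by
  intro y hy
  induction hy with
  | refl => exact hg
  | tail _ h _ => exact h.2.1

lemma mem_clus_self (K : Set V) (g : V) (ω : Pair V → ℕ) : g ∈ clus K g ω :=
  Relation.ReflTransGen.refl

lemma clus_mono {K K' : Set V} (h : K ⊆ K') (g : V) (ω : Pair V → ℕ) :
    clus K g ω ⊆ clus K' g ω := by
  intro y hy
  exact Relation.ReflTransGen.mono (fun a b hab => ⟨h hab.1, h hab.2.1, hab.2.2⟩) _ _ hy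

lemma clus_subset_of_adj {K M N : Set V} {g x y : V} {ω : Pair V → ℕ}
    (hK : K ⊆ N) (hM : M ⊆ N) (hxK : x ∈ K) (hyM : y ∈ M) (hx : x ∈ clus K g ω)
    (hxy : (openGraph ω).Adj x y) : clus M y ω ⊆ clus N g ω := by
  intro z hz
  have h1 : x ∈ clus N g ω := clus_mono hK g ω hx
  have h2 : y ∈ clus N g ω := Relation.ReflTransGen.tail h1 ⟨hK hxK, hM hyM, hxy⟩
  exact Relation.ReflTransGen.trans h2 (clus_mono hM y ω hz)

end graph

section step

variable {V I : Type*} (ν : Pair V → Measure ℕ) [∀ e, IsProbabilityMeasure (ν e)]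

/-- open edge from a point of `S` to its partner, whose restricted cluster is large -/
def Gev (y : I → V → V) (M : I → V → Set V) (m : ℕ) (i : I) (S : Set V) : Set (Pair V → ℕ) :=
  {ω | ∃ x ∈ S, (openGraph ω).Adj x (y i x) ∧ m ≤ (clus (M i x) (y i x) ω).ncard}

lemma Gev_dep {y : I → V → V} {M : I → V → Set V} {m : ℕ} {i : I} {S : Set V} {L : Set V}
    (hM : ∀ x ∈ S, M i x ⊆ L) :
    DependsOn (fun ω => ω ∈ Gev y M m i S)
      (inside L ∪ {e | ∃ x ∈ S, e.1 = s(x, y i x)}) := by
  intro ω ω' h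
  have key : ∀ x ∈ S, ((openGraph ω).Adj x (y i x) ∧ m ≤ (clus (M i x) (y i x) ω).ncard) =
      ((openGraph ω').Adj x (y i x) ∧ m ≤ (clus (M i x) (y i x) ω').ncard) := by
    intro x hx
    have h1 := adj_congr x (y i x) (ω := ω) (ω' := ω') (fun e he => h e (Or.inr ⟨x, hx, he⟩))
    have h2 := clus_dep (M i x) (y i x) (x := ω) (y := ω')
      (fun e he => h e (Or.inl (inside_mono (hM x hx) he)))
    rw [h1, h2]
  simp only [Gev, Set.mem_ofPred_eq, eq_iff_iff]
  constructor
  · rintro ⟨x, hx, hh⟩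
    exact ⟨x, hx, by rw [← key x hx]; exact hh⟩
  · rintro ⟨x, hx, hh⟩
    exact ⟨x, hx, by rw [key x hx]; exact hh⟩

lemma partner_finite {y : I → V → V} {i : I} {S : Set V} (hS : S.Finite) :
    {e : Pair V | ∃ x ∈ S, e.1 = s(x, y i x)}.Finite := by
  have h1 : ((fun e : Pair V => e.1) '' {e : Pair V | ∃ x ∈ S, e.1 = s(x, y i x)}).Finite := by
    apply Set.Finite.subset (hS.image (fun x => s(x, y i x)))
    rintro _ ⟨e, ⟨x, hx, he⟩, rfl⟩
    exact ⟨x, hx, he.symm⟩
  exact Set.Finite.of_finite_image h1 (Subtype.val_injective.injOn)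

lemma Gev_lower {K L : Set V} (hL : L.Finite) (hKL : Disjoint K L)
    {y : I → V → V} {M : I → V → Set V} {m : ℕ} {i : I}
    (hy : ∀ x ∈ K, y i x ∈ M i x) (hM : ∀ x ∈ K, M i x ⊆ L)
    {p t : ℝ} (hp0 : 0 ≤ p) (hp1 : p ≤ 1) (ht0 : 0 ≤ t)
    (hp : ∀ x ∈ K, p ≤ (Measure.infinitePi ν).real {ω | (openGraph ω).Adj x (y i x)})
    (ht : ∀ x ∈ K, t ≤ (Measure.infinitePi ν).real
      {ω | m ≤ (clus (M i x) (y i x) ω).ncard})
    (S : Finset V) (hS : (S : Set V) ⊆ K) :
    (1 - (1 - p) ^ S.card) * t ≤ (Measure.infinitePi ν).real (Gev y M m i S) := by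
  classical
  induction S using Finset.induction_on with
  | empty => simp
  | insert x0 S hx0 ih =>
    have hSK : (S : Set V) ⊆ K := fun x hx => hS (by simp at hx ⊢; exact Or.inr hx)
    have hx0K : x0 ∈ K := hS (by simp)
    have ih' := ih hSK
    set P := Measure.infinitePi ν with hP
    set O : Set (Pair V → ℕ) := {ω | (openGraph ω).Adj x0 (y i x0)} with hO
    set E : Set (Pair V → ℕ) := {ω | m ≤ (clus (M i x0) (y i x0) ω).ncard} with hE
    set G : Set (Pair V → ℕ) := Gev y M m i S with hG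
    have hOfin : ({e : Pair V | e.1 = s(x0, y i x0)}).Finite := by
      have := partner_finite (y := y) (i := i) (S := {x0}) (Set.finite_singleton x0)
      simpa using this
    have hOdep := adj_dep (V := V) x0 (y i x0)
    have hEdep : DependsOn (fun ω => ω ∈ E) (inside L) := by
      intro ω ω' h
      have h2 := clus_dep (M i x0) (y i x0) (x := ω) (y := ω')
        (fun e he => h e (inside_mono (hM x0 hx0K) he))
      simp only [hE, Set.mem_ofPred_eq, h2]
    have hGdep : DependsOn (fun ω => ω ∈ G) (inside L ∪ {e | ∃ x ∈ (S : Set V), e.1 = s(x, y i x)}) :=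
      Gev_dep (fun x hx => hM x (hSK hx))
    have hOcdep : DependsOn (fun ω => ω ∈ Oᶜ) {e : Pair V | e.1 = s(x0, y i x0)} := by
      intro ω ω' h
      have := hOdep h
      exact congrArg Not this
    have hOmeas : MeasurableSet O := measurableSet_of_dep hOfin hOdep
    have hdisj1 : Disjoint {e : Pair V | e.1 = s(x0, y i x0)} (inside L) := by
      rw [Set.disjoint_left]
      intro e he he'
      have : x0 ∈ L := he' x0 (by rw [he]; simp)
      exact (Set.disjoint_left.mp hKL) hx0K this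
    have hdisj2 : Disjoint {e : Pair V | e.1 = s(x0, y i x0)}
        (inside L ∪ {e | ∃ x ∈ (S : Set V), e.1 = s(x, y i x)}) := by
      rw [Set.disjoint_union_right]
      refine ⟨hdisj1, ?_⟩
      rw [Set.disjoint_left]
      rintro e he ⟨x, hx, hex⟩
      rw [Set.mem_ofPred_eq] at he
      rw [he, Sym2.eq_iff] at hex
      rcases hex with ⟨h, _⟩ | ⟨h, _⟩
      · exact hx0 (by rw [h]; exact hx)
      · have : x0 ∈ L := by rw [h]; exact hM x (hSK hx) (hy x (hSK hx))
        exact (Set.disjoint_left.mp hKL) hx0K this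
    have h1 : P.real (O ∩ E) = P.real O * P.real E :=
      indep_of_dep ν hOfin (inside_finite hL) hdisj1 hOdep hEdep
    have h2 : P.real (Oᶜ ∩ G) = P.real Oᶜ * P.real G :=
      indep_of_dep ν hOfin ((inside_finite hL).union (partner_finite S.finite_toSet)) hdisj2
        hOcdep hGdep
    have h3 : P.real Oᶜ = 1 - P.real O := by
      rw [probReal_compl_eq_one_sub hOmeas]
    have hsub : (O ∩ E) ∪ (Oᶜ ∩ G) ⊆ Gev y M m i ((insert x0 S : Finset V) : Set V) := by
      rintro ω (⟨hωO, hωE⟩ | ⟨_, hωG⟩)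
      · exact ⟨x0, by simp, hωO, hωE⟩
      · obtain ⟨x, hx, hh⟩ := hωG
        exact ⟨x, by simp at hx ⊢; exact Or.inr hx, hh⟩
    have hEm : MeasurableSet E := measurableSet_of_dep (inside_finite hL) hEdep
    have hGm : MeasurableSet G := measurableSet_of_dep
      ((inside_finite hL).union (partner_finite S.finite_toSet)) hGdep
    have h4 : P.real ((O ∩ E) ∪ (Oᶜ ∩ G)) = P.real (O ∩ E) + P.real (Oᶜ ∩ G) := by
      apply measureReal_union _ (hOmeas.compl.inter hGm)
      rw [Set.disjoint_left]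
      rintro ω ⟨h, _⟩ ⟨h', _⟩
      exact h' h
    have h5 : P.real ((O ∩ E) ∪ (Oᶜ ∩ G)) ≤ P.real (Gev y M m i ((insert x0 S : Finset V) : Set V)) :=
      measureReal_mono hsub
    rw [h4, h1, h2, h3] at h5
    refine le_trans ?_ h5
    rw [Finset.card_insert_of_notMem hx0, pow_succ]
    have ha := hp x0 hx0K
    have hE' := ht x0 hx0K
    have ha1 : P.real O ≤ 1 := measureReal_le_one
    have hr0 : 0 ≤ (1 - p) ^ S.card := pow_nonneg (by linarith) _
    set a := P.real O
    set r := (1 - p) ^ S.card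
    have e1 : a * t ≤ a * P.real E := mul_le_mul_of_nonneg_left hE' (le_trans hp0 ha)
    have e2 : (1 - a) * ((1 - r) * t) ≤ (1 - a) * P.real G :=
      mul_le_mul_of_nonneg_left ih' (by linarith)
    have e3 : (1 - r * (1 - p)) * t ≤ a * t + (1 - a) * ((1 - r) * t) := by
      have : a * t + (1 - a) * ((1 - r) * t) - (1 - r * (1 - p)) * t = (a - p) * (r * t) := by ring
      have h6 : 0 ≤ (a - p) * (r * t) := mul_nonneg (by linarith) (mul_nonneg hr0 ht0)
      linarith
    linarith

/-- the pairs on which `Gev y M m i S` depends -/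
def Dset (y : I → V → V) (L : I → Set V) (i : I) (S : Set V) : Set (Pair V) :=
  inside (L i) ∪ {e | ∃ x ∈ S, e.1 = s(x, y i x)}

lemma Dset_end {y : I → V → V} {L : I → Set V} {i : I} {S K : Set V} (hS : S ⊆ K)
    (hy : ∀ x ∈ K, y i x ∈ L i) {e : Pair V} (he : e ∈ Dset y L i S) :
    (∃ z ∈ e.1, z ∈ L i) ∧ (∀ z ∈ e.1, z ∈ K ∨ z ∈ L i) := by
  rcases he with he | ⟨x, hx, he⟩
  · refine ⟨?_, fun z hz => Or.inr (he z hz)⟩
    rcases e with ⟨e, hd⟩
    induction e using Sym2.inductionOn with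
    | hf a b => exact ⟨a, by simp, he a (by simp)⟩
  · refine ⟨⟨y i x, by rw [he]; simp, hy x (hS hx)⟩, ?_⟩
    intro z hz
    rw [he, Sym2.mem_iff] at hz
    rcases hz with rfl | rfl
    · exact Or.inl (hS hx)
    · exact Or.inr (hy x (hS hx))

lemma Dset_finite {y : I → V → V} {L : I → Set V} {i : I} {S : Set V} (hS : S.Finite)
    (hL : (L i).Finite) : (Dset y L i S).Finite :=
  (inside_finite hL).union (partner_finite hS)

lemma fail_upper {K : Set V}
    (B : Finset I) (L : I → Set V) (hL : ∀ i ∈ B, (L i).Finite)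
    (hKL : ∀ i ∈ B, Disjoint K (L i))
    (hLL : ∀ i ∈ B, ∀ j ∈ B, i ≠ j → Disjoint (L i) (L j))
    {y : I → V → V} {M : I → V → Set V} {m : ℕ}
    (hy : ∀ i ∈ B, ∀ x ∈ K, y i x ∈ M i x) (hM : ∀ i ∈ B, ∀ x ∈ K, M i x ⊆ L i)
    {p t : ℝ} (hp0 : 0 ≤ p) (hp1 : p ≤ 1) (ht0 : 0 ≤ t) (ht1 : t ≤ 1)
    (hp : ∀ i ∈ B, ∀ x ∈ K,
      p ≤ (Measure.infinitePi ν).real {ω | (openGraph ω).Adj x (y i x)})
    (ht : ∀ i ∈ B, ∀ x ∈ K,
      t ≤ (Measure.infinitePi ν).real {ω | m ≤ (clus (M i x) (y i x) ω).ncard})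
    (S : Finset V) (hS : (S : Set V) ⊆ K) (hSm : m ≤ S.card)
    (B' : Finset I) (hB' : B' ⊆ B) :
    (DependsOn (fun ω => ω ∈ {ω : Pair V → ℕ | ∀ i ∈ B', ω ∉ Gev y M m i S})
      (⋃ i ∈ B', Dset y L i S)) ∧
    (Measure.infinitePi ν).real {ω | ∀ i ∈ B', ω ∉ Gev y M m i S}
      ≤ (1 - (1 - (1 - p) ^ m) * t) ^ B'.card := by
  classical
  have hdep : ∀ B'' : Finset I, B'' ⊆ B →
      DependsOn (fun ω => ω ∈ {ω : Pair V → ℕ | ∀ i ∈ B'', ω ∉ Gev y M m i S})
      (⋃ i ∈ B'', Dset y L i S) := by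
    intro B'' hB'' ω ω' h
    simp only [Set.mem_ofPred_eq, eq_iff_iff]
    refine forall₂_congr fun i hi => ?_
    have := (Gev_dep (y := y) (M := M) (m := m) (i := i) (S := (S : Set V)) (L := L i)
      (fun x hx => hM i (hB'' hi) x (hS hx))) (x := ω) (y := ω')
      (fun e he => h e (Set.mem_biUnion hi he))
    exact not_congr (Iff.of_eq this)
  refine ⟨hdep B' hB', ?_⟩
  induction B' using Finset.induction_on with
  | empty => simp
  | insert i0 B' hi0 ih =>
    have hB'' : B' ⊆ B := fun i hi => hB' (Finset.mem_insert_of_mem hi)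
    have hi0B : i0 ∈ B := hB' (Finset.mem_insert_self _ _)
    have ih' := ih hB''
    set P := Measure.infinitePi ν with hP
    have hyL : ∀ i ∈ B, ∀ x ∈ K, y i x ∈ L i := fun i hi x hx => hM i hi x hx (hy i hi x hx)
    have hGdep : DependsOn (fun ω => ω ∈ Gev y M m i0 (S : Set V)) (Dset y L i0 S) :=
      Gev_dep (fun x hx => hM i0 hi0B x (hS hx))
    have hGcdep : DependsOn (fun ω => ω ∈ (Gev y M m i0 (S : Set V))ᶜ) (Dset y L i0 S) := by
      intro ω ω' h
      exact congrArg Not (hGdep h)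
    have hfin0 : (Dset y L i0 S).Finite := Dset_finite S.finite_toSet (hL i0 hi0B)
    have hfin1 : (⋃ i ∈ B', Dset y L i S).Finite :=
      Set.Finite.biUnion B'.finite_toSet (fun i hi => Dset_finite S.finite_toSet (hL i (hB'' hi)))
    have hdisj : Disjoint (Dset y L i0 S) (⋃ i ∈ B', Dset y L i S) := by
      rw [Set.disjoint_left]
      intro e he he'
      simp only [Set.mem_iUnion] at he'
      obtain ⟨i, hi, he'⟩ := he'
      obtain ⟨⟨z, hz, hzL⟩, _⟩ := Dset_end hS (hyL i0 hi0B) he
      obtain ⟨_, hall⟩ := Dset_end hS (hyL i (hB'' hi)) he'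
      rcases hall z hz with h | h
      · exact (Set.disjoint_left.mp (hKL i0 hi0B)) h hzL
      · have hne : i0 ≠ i := fun h => hi0 (h ▸ hi)
        exact (Set.disjoint_left.mp (hLL i0 hi0B i (hB'' hi) hne)) hzL h
    have hset : {ω : Pair V → ℕ | ∀ i ∈ insert i0 B', ω ∉ Gev y M m i S}
        = (Gev y M m i0 (S : Set V))ᶜ ∩ {ω | ∀ i ∈ B', ω ∉ Gev y M m i S} := by
      ext ω
      simp
    rw [hset, indep_of_dep ν hfin0 hfin1 hdisj hGcdep (hdep B' hB''),
      Finset.card_insert_of_notMem hi0, pow_succ']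
    have hGm : MeasurableSet (Gev y M m i0 (S : Set V)) := measurableSet_of_dep hfin0 hGdep
    have h1 : (Measure.infinitePi ν).real (Gev y M m i0 (S : Set V))ᶜ
        = 1 - P.real (Gev y M m i0 (S : Set V)) := by
      rw [probReal_compl_eq_one_sub hGm]
    have h2 := Gev_lower ν (hL i0 hi0B) (hKL i0 hi0B) (y := y) (M := M) (m := m) (i := i0)
      (hy i0 hi0B) (hM i0 hi0B) hp0 hp1 ht0 (hp i0 hi0B) (ht i0 hi0B) S hS
    have h3 : (1 - (1 - p) ^ m) * t ≤ (1 - (1 - p) ^ S.card) * t := by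
      apply mul_le_mul_of_nonneg_right _ ht0
      have := pow_le_pow_of_le_one (by linarith : (0:ℝ) ≤ 1 - p) (by linarith) hSm
      linarith
    apply mul_le_mul _ ih' measureReal_nonneg
    · have h4 : (0:ℝ) ≤ (1 - p) ^ m := pow_nonneg (by linarith) _
      have h5 : (1 - p) ^ m ≤ 1 := pow_le_one₀ (by linarith) (by linarith)
      nlinarith
    · rw [h1]; linarith

lemma step {K : Set V} (hK : K.Finite) {g : V} (hg : g ∈ K)
    (B : Finset I) (L : I → Set V) (hL : ∀ i ∈ B, (L i).Finite)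
    (hKL : ∀ i ∈ B, Disjoint K (L i))
    (hLL : ∀ i ∈ B, ∀ j ∈ B, i ≠ j → Disjoint (L i) (L j))
    {y : I → V → V} {M : I → V → Set V} {m : ℕ}
    (hy : ∀ i ∈ B, ∀ x ∈ K, y i x ∈ M i x) (hM : ∀ i ∈ B, ∀ x ∈ K, M i x ⊆ L i)
    {p t : ℝ} (hp0 : 0 ≤ p) (hp1 : p ≤ 1) (ht0 : 0 ≤ t) (ht1 : t ≤ 1)
    (hp : ∀ i ∈ B, ∀ x ∈ K,
      p ≤ (Measure.infinitePi ν).real {ω | (openGraph ω).Adj x (y i x)})
    (ht : ∀ i ∈ B, ∀ x ∈ K,
      t ≤ (Measure.infinitePi ν).real {ω | m ≤ (clus (M i x) (y i x) ω).ncard})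
    {N : Set V} (hN : N.Finite) (hKN : K ⊆ N) (hLN : ∀ i ∈ B, L i ⊆ N) :
    (Measure.infinitePi ν).real {ω | m ≤ (clus K g ω).ncard}
        - (1 - (1 - (1 - p) ^ m) * t) ^ B.card
      ≤ (Measure.infinitePi ν).real {ω | 2 * m ≤ (clus N g ω).ncard} := by
  classical
  set P := Measure.infinitePi ν with hP
  have hyL : ∀ i ∈ B, ∀ x ∈ K, y i x ∈ L i := fun i hi x hx => hM i hi x hx (hy i hi x hx)
  -- possible large clusters
  set U : Finset (Finset V) := hK.toFinset.powerset.filter (fun S => m ≤ S.card) with hU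
  have hUmem : ∀ S ∈ U, (S : Set V) ⊆ K ∧ m ≤ S.card := by
    intro S hS
    rw [hU, Finset.mem_filter, Finset.mem_powerset] at hS
    refine ⟨fun x hx => ?_, hS.2⟩
    have := hS.1 hx
    simpa using this
  set Fl : Finset V → Set (Pair V → ℕ) := fun S => {ω | ∀ i ∈ B, ω ∉ Gev y M m i S} with hFl
  set Cl : Finset V → Set (Pair V → ℕ) := fun S => {ω | clus K g ω = (S : Set V)} with hCl
  have hCldep : ∀ S, DependsOn (fun ω => ω ∈ Cl S) (inside K) := by
    intro S ω ω' h
    have := clus_dep K g h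
    simp only [hCl, Set.mem_ofPred_eq, this]
  have hClm : ∀ S, MeasurableSet (Cl S) := fun S =>
    measurableSet_of_dep (inside_finite hK) (hCldep S)
  have hsub : {ω : Pair V → ℕ | m ≤ (clus K g ω).ncard} ⊆
      {ω | 2 * m ≤ (clus N g ω).ncard} ∪ ⋃ S ∈ U, (Cl S ∩ Fl S) := by
    intro ω hω
    rw [Set.mem_ofPred_eq] at hω
    have hCK : clus K g ω ⊆ K := clus_subset hg ω
    have hCfin : (clus K g ω).Finite := hK.subset hCK
    set S : Finset V := hCfin.toFinset with hSdef
    have hScoe : (S : Set V) = clus K g ω := by simp [hSdef]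
    have hSU : S ∈ U := by
      rw [hU, Finset.mem_filter, Finset.mem_powerset]
      refine ⟨?_, ?_⟩
      · intro x hx
        rw [hSdef, Set.Finite.mem_toFinset] at hx
        simpa using hCK hx
      · rw [Set.ncard_eq_toFinset_card _ hCfin] at hω
        exact hω
    by_cases hF : ω ∈ Fl S
    · right
      exact Set.mem_biUnion hSU ⟨hScoe.symm, hF⟩
    · left
      simp only [hFl, Set.mem_ofPred_eq, not_forall, not_not] at hF
      obtain ⟨i, hi, x, hx, hadj, hbig⟩ := hF
      have hxC : x ∈ clus K g ω := by rw [← hScoe]; exact hx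
      have hxK : x ∈ K := hCK hxC
      have h1 : clus K g ω ⊆ clus N g ω := clus_mono hKN g ω
      have h2 : clus (M i x) (y i x) ω ⊆ clus N g ω :=
        clus_subset_of_adj hKN ((hM i hi x hxK).trans (hLN i hi)) hxK (hy i hi x hxK) hxC hadj
      have h3 : clus (M i x) (y i x) ω ⊆ L i :=
        (clus_subset (hy i hi x hxK) ω).trans (hM i hi x hxK)
      have hdisj : Disjoint (clus K g ω) (clus (M i x) (y i x) ω) :=
        (hKL i hi).mono hCK h3
      have hfin2 : (clus (M i x) (y i x) ω).Finite := (hL i hi).subset h3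
      have hfinN : (clus N g ω).Finite := hN.subset (clus_subset (hKN hg) ω)
      have h4 := Set.ncard_union_eq hdisj hCfin hfin2
      have h5 := Set.ncard_le_ncard (Set.union_subset h1 h2) hfinN
      rw [Set.mem_ofPred_eq]
      omega
  have h1 : P.real {ω : Pair V → ℕ | m ≤ (clus K g ω).ncard} ≤
      P.real {ω | 2 * m ≤ (clus N g ω).ncard} + P.real (⋃ S ∈ U, (Cl S ∩ Fl S)) :=
    (measureReal_mono hsub).trans (measureReal_union_le _ _)
  set q : ℝ := (1 - (1 - (1 - p) ^ m) * t) ^ B.card with hq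
  have hq0 : 0 ≤ q := by
    apply pow_nonneg
    have h4 : (0:ℝ) ≤ (1 - p) ^ m := pow_nonneg (by linarith) _
    have h5 : (1 - p) ^ m ≤ 1 := pow_le_one₀ (by linarith) (by linarith)
    nlinarith
  have h2 : P.real (⋃ S ∈ U, (Cl S ∩ Fl S)) ≤ q := by
    calc P.real (⋃ S ∈ U, (Cl S ∩ Fl S)) ≤ ∑ S ∈ U, P.real (Cl S ∩ Fl S) :=
          measureReal_biUnion_finset_le _ _
      _ ≤ ∑ S ∈ U, P.real (Cl S) * q := by
          apply Finset.sum_le_sum
          intro S hS
          obtain ⟨hSK, hSm⟩ := hUmem S hS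
          obtain ⟨hdep, hle⟩ := fail_upper ν B L hL hKL hLL hy hM hp0 hp1 ht0 ht1 hp ht S hSK hSm
            B (Finset.Subset.refl B)
          have hfin1 : (⋃ i ∈ B, Dset y L i (S : Set V)).Finite :=
            Set.Finite.biUnion B.finite_toSet (fun i hi => Dset_finite S.finite_toSet (hL i hi))
          have hdisj : Disjoint (inside K) (⋃ i ∈ B, Dset y L i (S : Set V)) := by
            rw [Set.disjoint_left]
            intro e he he'
            simp only [Set.mem_iUnion] at he'
            obtain ⟨i, hi, he'⟩ := he'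
            obtain ⟨⟨z, hz, hzL⟩, _⟩ := Dset_end hSK (hyL i hi) he'
            exact (Set.disjoint_left.mp (hKL i hi)) (he z hz) hzL
          rw [hP, indep_of_dep ν (inside_finite hK) hfin1 hdisj (hCldep S) hdep]
          exact mul_le_mul_of_nonneg_left hle measureReal_nonneg
      _ = (∑ S ∈ U, P.real (Cl S)) * q := by rw [Finset.sum_mul]
      _ = P.real (⋃ S ∈ U, Cl S) * q := by
          rw [measureReal_biUnion_finset]
          · intro S _ S' _ hSS'
            rw [Function.onFun, Set.disjoint_left]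
            intro ω h h'
            rw [hCl, Set.mem_ofPred_eq] at h h'
            exact hSS' (Finset.coe_injective (h.symm.trans h'))
          · intro S _
            exact hClm S
      _ ≤ 1 * q := mul_le_mul_of_nonneg_right measureReal_le_one hq0
      _ = q := one_mul q
  linarith

end step

section group

variable {Γ : Type*} [Group Γ]

/-- the double product `K b K` -/
def dbl (K : Set Γ) (b : Γ) : Set Γ := {z | ∃ u ∈ K, ∃ v ∈ K, z = u * b * v}

lemma dbl_finite {K : Set Γ} (hK : K.Finite) (b : Γ) : (dbl K b).Finite := by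
  apply ((hK.prod hK).image (fun p : Γ × Γ => p.1 * b * p.2)).subset
  rintro z ⟨u, hu, v, hv, rfl⟩
  exact ⟨(u, v), ⟨hu, hv⟩, rfl⟩

/-- generic elements: the double products are disjoint from each other and from `K` -/
lemma exists_generic [Infinite Γ] (K : Set Γ) (hK : K.Finite) (k : ℕ) :
    ∃ B : Finset Γ, B.card = k ∧ (∀ b ∈ B, Disjoint K (dbl K b)) ∧
      (∀ b ∈ B, ∀ b' ∈ B, b ≠ b' → Disjoint (dbl K b) (dbl K b')) := by
  classical
  induction k with
  | zero => exact ⟨∅, by simp, by simp, by simp⟩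
  | succ k ih =>
    obtain ⟨B, hBc, hB1, hB2⟩ := ih
    -- the finite set to avoid
    set T : Set Γ := K ∪ ⋃ b ∈ B, dbl K b with hT
    have hTfin : T.Finite :=
      hK.union (Set.Finite.biUnion B.finite_toSet (fun b _ => dbl_finite hK b))
    set A : Set Γ := {z | ∃ u ∈ K, ∃ v ∈ K, ∃ s ∈ T, z = u⁻¹ * s * v⁻¹} with hA
    have hAfin : A.Finite := by
      apply (((hK.prod hK).prod hTfin).image
        (fun p : (Γ × Γ) × Γ => p.1.1⁻¹ * p.2 * p.1.2⁻¹)).subset
      rintro z ⟨u, hu, v, hv, s, hs, rfl⟩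
      exact ⟨((u, v), s), ⟨⟨hu, hv⟩, hs⟩, rfl⟩
    obtain ⟨c, hc⟩ := (hAfin.union B.finite_toSet).exists_notMem
    have hcA : c ∉ A := fun h => hc (Or.inl h)
    have hcB : c ∉ B := fun h => hc (Or.inr h)
    have hcT : Disjoint T (dbl K c) := by
      rw [Set.disjoint_left]
      rintro s hs ⟨u, hu, v, hv, rfl⟩
      apply hcA
      exact ⟨u, hu, v, hv, u * c * v, hs, by group⟩
    refine ⟨insert c B, by rw [Finset.card_insert_of_notMem hcB, hBc], ?_, ?_⟩
    · intro b hb
      rw [Finset.mem_insert] at hb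
      rcases hb with rfl | hb
      · exact hcT.mono_left Set.subset_union_left
      · exact hB1 b hb
    · intro b hb b' hb' hne
      rw [Finset.mem_insert] at hb hb'
      rcases hb with rfl | hb
      · rcases hb' with rfl | hb'
        · exact absurd rfl hne
        · exact (hcT.mono_left ((Set.subset_biUnion_of_mem (u := fun b => dbl K b) hb').trans
            Set.subset_union_right)).symm
      · rcases hb' with rfl | hb'
        · exact hcT.mono_left ((Set.subset_biUnion_of_mem (u := fun b => dbl K b) hb).trans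
            Set.subset_union_right)
        · exact hB2 b hb b' hb' hne

variable [Infinite Γ]

/-- `k` generic elements with respect to the finite set `K` -/
noncomputable def gen (K : Finset Γ) (k : ℕ) : Finset Γ :=
  (exists_generic (K : Set Γ) K.finite_toSet k).choose

lemma gen_card (K : Finset Γ) (k : ℕ) : (gen K k).card = k :=
  (exists_generic (K : Set Γ) K.finite_toSet k).choose_spec.1

lemma gen_disj1 (K : Finset Γ) (k : ℕ) : ∀ b ∈ gen K k, Disjoint (K : Set Γ) (dbl K b) :=
  (exists_generic (K : Set Γ) K.finite_toSet k).choose_spec.2.1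

lemma gen_disj2 (K : Finset Γ) (k : ℕ) :
    ∀ b ∈ gen K k, ∀ b' ∈ gen K k, b ≠ b' → Disjoint (dbl (K : Set Γ) b) (dbl K b') :=
  (exists_generic (K : Set Γ) K.finite_toSet k).choose_spec.2.2

open Classical in
/-- the finite windows -/
noncomputable def win : ℕ → Finset Γ
  | 0 => {1}
  | n + 1 => win n ∪ (gen (win n) (4 * (n + 2))).biUnion
      (fun b => (dbl_finite (win n).finite_toSet b).toFinset)

/-- the generic elements of scale `n` -/
noncomputable def scl (n : ℕ) : Finset Γ := gen (win n) (4 * (n + 2))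

lemma one_mem_win (n : ℕ) : (1 : Γ) ∈ win (Γ := Γ) n := by
  classical
  induction n with
  | zero => simp [win]
  | succ n ih => rw [win, Finset.mem_union]; exact Or.inl ih

lemma win_succ_coe (n : ℕ) : ((win (n + 1) : Finset Γ) : Set Γ)
    = ((win n : Finset Γ) : Set Γ) ∪ ⋃ b ∈ (scl n : Finset Γ), dbl ((win n : Finset Γ) : Set Γ) b := by
  classical
  rw [win]
  ext x
  simp [scl]

/-- If every pair `{x, x b}` with `b` of scale `n` is open with probability at least
`1 - exp (-2^{-n})`, then restricted clusters are large with probability at least one half. -/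
lemma main_bound (ν : Pair Γ → Measure ℕ) [∀ e, IsProbabilityMeasure (ν e)]
    (hν : ∀ n : ℕ, ∀ b ∈ (scl n : Finset Γ), ∀ x : Γ,
      1 - Real.exp (-(1 / 2) ^ n) ≤
        (Measure.infinitePi ν).real {ω | (openGraph ω).Adj x (x * b)})
    (n : ℕ) : ∀ g : Γ, 1 / 2 + (1 / 2 : ℝ) ^ (n + 1) ≤
      (Measure.infinitePi ν).real
        {ω | 2 ^ n ≤ (clus ((fun z => g * z) '' ((win n : Finset Γ) : Set Γ)) g ω).ncard} := by
  classical
  induction n with
  | zero =>
    intro g
    have : {ω : Pair Γ → ℕ | 2 ^ 0 ≤ (clus ((fun z => g * z) '' ((win 0 : Finset Γ) : Set Γ)) g ω).ncard}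
        = Set.univ := by
      ext ω
      simp only [Set.mem_ofPred_eq, Set.mem_univ, iff_true, pow_zero]
      have hg : g ∈ (fun z => g * z) '' ((win 0 : Finset Γ) : Set Γ) := ⟨1, one_mem_win 0, by simp⟩
      have hfin : (clus ((fun z => g * z) '' ((win 0 : Finset Γ) : Set Γ)) g ω).Finite :=
        ((win 0).finite_toSet.image _).subset (clus_subset hg ω)
      exact (Set.ncard_pos hfin).mpr ⟨g, mem_clus_self _ _ _⟩
    rw [this]
    simp
    norm_num
  | succ n ih =>
    intro g
    set K : Set Γ := (fun z => g * z) '' ((win n : Finset Γ) : Set Γ) with hK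
    set B : Finset Γ := scl n with hB
    set L : Γ → Set Γ := fun b => (fun z => g * z) '' (dbl ((win n : Finset Γ) : Set Γ) b) with hL
    set M : Γ → Γ → Set Γ := fun b x => (fun z => x * b * z) '' ((win n : Finset Γ) : Set Γ) with hM
    have hinj : Function.Injective (fun z : Γ => g * z) := mul_right_injective g
    have h := step ν (K := K) ((win n).finite_toSet.image _) (g := g)
      ⟨1, one_mem_win n, by simp⟩ B L
      (fun b _ => (dbl_finite (win n).finite_toSet b).image _)
      (fun b hb => by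
        rw [Set.disjoint_image_iff hinj]
        exact gen_disj1 _ _ b hb)
      (fun b hb b' hb' hne => by
        rw [Set.disjoint_image_iff hinj]
        exact gen_disj2 _ _ b hb b' hb' hne)
      (y := fun b x => x * b) (M := M) (m := 2 ^ n)
      (fun b _ x _ => ⟨1, one_mem_win n, by simp⟩)
      (fun b _ x hx => by
        rintro _ ⟨v, hv, rfl⟩
        obtain ⟨u, hu, rfl⟩ := hx
        exact ⟨u * b * v, ⟨u, hu, v, hv, rfl⟩, by simp [mul_assoc]⟩)
      (p := 1 - Real.exp (-(1 / 2) ^ n)) (t := 1 / 2 + (1 / 2 : ℝ) ^ (n + 1))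
      (by
        have : Real.exp (-(1 / 2) ^ n) ≤ 1 := by
          rw [Real.exp_le_one_iff]
          have : (0:ℝ) ≤ (1 / 2) ^ n := by positivity
          linarith
        linarith)
      (by
        have := Real.exp_pos (-(1 / 2) ^ n)
        linarith)
      (by positivity)
      (by
        have : (1 / 2 : ℝ) ^ (n + 1) ≤ 1 / 2 := by
          rw [pow_succ]
          have : (1 / 2 : ℝ) ^ n ≤ 1 := pow_le_one₀ (by norm_num) (by norm_num)
          linarith
        linarith)
      (fun b hb x _ => hν n b hb x)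
      (fun b _ x _ => ih (x * b))
      (N := (fun z => g * z) '' ((win (n + 1) : Finset Γ) : Set Γ))
      ((win (n + 1)).finite_toSet.image _)
      (by
        apply Set.image_mono
        rw [win_succ_coe]
        exact Set.subset_union_left)
      (fun b hb => by
        apply Set.image_mono
        rw [win_succ_coe]
        exact (Set.subset_biUnion_of_mem (u := fun b => dbl ((win n : Finset Γ) : Set Γ) b) hb).trans
            Set.subset_union_right)
    have hcard : B.card = 4 * (n + 2) := gen_card _ _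
    rw [hcard] at h
    have h1 : (1 - (1 - Real.exp (-(1 / 2 : ℝ) ^ n))) ^ 2 ^ n = Real.exp (-1) := by
      rw [sub_sub_cancel, ← Real.exp_nat_mul]
      congr 1
      push_cast
      rw [mul_neg, ← mul_pow]
      norm_num
    rw [h1] at h
    have h2 : Real.exp (-1) ≤ 1 / 2 := by
      have := Real.exp_neg_one_lt_d9
      linarith
    have h3 : (1 - (1 - Real.exp (-1)) * (1 / 2 + (1 / 2 : ℝ) ^ (n + 1))) ^ (4 * (n + 2))
        ≤ (1 / 2 : ℝ) ^ (n + 2) := by
      have h4 : (1 - (1 - Real.exp (-1)) * (1 / 2 + (1 / 2 : ℝ) ^ (n + 1))) ≤ 3 / 4 := by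
        have : (0:ℝ) ≤ (1 / 2) ^ (n + 1) := by positivity
        nlinarith
      have h5 : 0 ≤ (1 - (1 - Real.exp (-1)) * (1 / 2 + (1 / 2 : ℝ) ^ (n + 1))) := by
        have h6 : (1 / 2 : ℝ) ^ (n + 1) ≤ 1 / 2 := by
          rw [pow_succ]
          have : (1 / 2 : ℝ) ^ n ≤ 1 := pow_le_one₀ (by norm_num) (by norm_num)
          linarith
        have h7 := Real.exp_pos (-1)
        have h8 : (0:ℝ) ≤ (1 / 2) ^ (n + 1) := by positivity
        nlinarith
      calc (1 - (1 - Real.exp (-1)) * (1 / 2 + (1 / 2 : ℝ) ^ (n + 1))) ^ (4 * (n + 2))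
          ≤ (3 / 4 : ℝ) ^ (4 * (n + 2)) := pow_le_pow_left₀ h5 h4 _
        _ = ((3 / 4 : ℝ) ^ 4) ^ (n + 2) := by rw [pow_mul]
        _ ≤ (1 / 2 : ℝ) ^ (n + 2) := by
          apply pow_le_pow_left₀ (by positivity)
          norm_num
    have h4 := ih g
    have h5 : (1 / 2 : ℝ) ^ (n + 1) = (1 / 2) ^ (n + 1 + 1) + (1 / 2) ^ (n + 2) := by
      rw [pow_succ _ (n + 1)]
      ring
    have h6 : 2 * 2 ^ n = 2 ^ (n + 1) := by ring
    rw [h6] at h
    linarith

end group

section final
variable {Γ : Type*} [Group Γ]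

lemma open_prob (μ : GeneratingMeasure Γ) (lam : ℝ≥0) {x y : Γ} (hxy : x ≠ y) :
    (percLaw μ lam).real {ω | (openGraph ω).Adj x y}
      = 1 - Real.exp (-(lam * (μ.mass (x⁻¹ * y)).toNNReal)) := by
  have hd : ¬ (s(x, y) : Sym2 Γ).IsDiag := by simpa using hxy
  have h1 : {ω : Pair Γ → ℕ | (openGraph ω).Adj x y}
      = (fun ω => ω ⟨s(x, y), hd⟩) ⁻¹' {0}ᶜ := by
    ext ω
    simp only [openGraph, Set.mem_ofPred_eq, Set.mem_preimage, Set.mem_compl_iff,
      Set.mem_singleton_iff]
    exact ⟨fun ⟨_, h⟩ => h, fun h => ⟨hd, h⟩⟩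
  have h2 : (percLaw μ lam).real {ω | (openGraph ω).Adj x y}
      = ((percLaw μ lam).map (fun ω => ω ⟨s(x, y), hd⟩)).real {0}ᶜ := by
    rw [h1, map_measureReal_apply (measurable_pi_apply _) (measurableSet_singleton 0).compl]
  rw [h2, percLaw, Measure.infinitePi_map_eval,
    probReal_compl_eq_one_sub (measurableSet_singleton 0), poissonMeasure_real_singleton]
  simp [weight]

instance (μ : GeneratingMeasure Γ) (lam : ℝ≥0) : IsProbabilityMeasure (percLaw μ lam) := by
  unfold percLaw; infer_instance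

/-- If all pairs `{x, x b}` with `b` of scale `n` are open with large enough probability,
then the multigraph has an infinite component with positive probability. -/
lemma perc_pos [Infinite Γ] (ν : Pair Γ → Measure ℕ) [∀ e, IsProbabilityMeasure (ν e)]
    (hν : ∀ n : ℕ, ∀ b ∈ (scl n : Finset Γ), ∀ x : Γ,
      1 - Real.exp (-(1 / 2) ^ n) ≤
        (Measure.infinitePi ν).real {ω | (openGraph ω).Adj x (x * b)}) :
    Measure.infinitePi ν (infiniteComponent Γ) ≠ 0 := by
  set P := Measure.infinitePi ν with hP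
  set E : ℕ → Set (Pair Γ → ℕ) := fun n =>
    {ω | 2 ^ n ≤ (clus ((fun z => 1 * z) '' ((win n : Finset Γ) : Set Γ)) 1 ω).ncard} with hE
  have hEm : ∀ n, MeasurableSet (E n) := by
    intro n
    apply measurableSet_of_dep (S := inside ((fun z => 1 * z) '' ((win n : Finset Γ) : Set Γ)))
      (inside_finite ((win n).finite_toSet.image _))
    intro ω ω' h
    have := clus_dep _ (1 : Γ) h
    simp only [hE, Set.mem_ofPred_eq, this]
  have hEP : ∀ n, (1 / 2 : ℝ) ≤ P.real (E n) := by
    intro n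
    have := main_bound ν hν n 1
    have h0 : (0 : ℝ) ≤ (1 / 2) ^ (n + 1) := by positivity
    linarith
  set F : ℕ → Set (Pair Γ → ℕ) := fun N => ⋃ n ≥ N, E n with hF
  have hFm : ∀ N, MeasurableSet (F N) := fun N =>
    MeasurableSet.iUnion fun n => MeasurableSet.iUnion fun _ => hEm n
  have hFanti : Antitone F := by
    intro a b hab ω hω
    simp only [hF, Set.mem_iUnion] at hω ⊢
    obtain ⟨n, hn, h⟩ := hω
    exact ⟨n, le_trans hab hn, h⟩
  have hFP : ∀ N, (1 / 2 : ℝ≥0∞) ≤ P (F N) := by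
    intro N
    have h1 : P (E N) ≤ P (F N) := measure_mono (by
      intro ω hω
      simp only [hF, Set.mem_iUnion]
      exact ⟨N, le_refl N, hω⟩)
    refine le_trans ?_ h1
    have h2 := hEP N
    rw [Measure.real] at h2
    have h3 : P (E N) ≠ ⊤ := measure_ne_top _ _
    rw [← ENNReal.ofReal_toReal h3]
    have h4 : (1 / 2 : ℝ≥0∞) = ENNReal.ofReal (1 / 2) := by
      rw [ENNReal.ofReal_div_of_pos (by norm_num)]
      simp
    rw [h4]
    exact ENNReal.ofReal_le_ofReal h2
  have hlim := tendsto_measure_iInter_atTop (μ := P) (s := F)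
    (fun N => (hFm N).nullMeasurableSet) hFanti ⟨0, measure_ne_top _ _⟩
  have hge : (1 / 2 : ℝ≥0∞) ≤ P (⋂ N, F N) := ge_of_tendsto' hlim hFP
  have hsub : (⋂ N, F N) ⊆ infiniteComponent Γ := by
    intro ω hω
    refine ⟨(openGraph ω).connectedComponentMk 1, ?_⟩
    intro hfin
    set s := ((openGraph ω).connectedComponentMk 1).supp.ncard with hs
    rw [Set.mem_iInter] at hω
    have h1 := hω s
    simp only [hF, Set.mem_iUnion] at h1
    obtain ⟨n, hn, h2⟩ := h1
    have h3 : clus ((fun z => 1 * z) '' ((win n : Finset Γ) : Set Γ)) 1 ω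
        ⊆ ((openGraph ω).connectedComponentMk 1).supp := by
      intro y hy
      rw [SimpleGraph.ConnectedComponent.mem_supp_iff, SimpleGraph.ConnectedComponent.eq]
      apply SimpleGraph.Reachable.symm
      rw [SimpleGraph.reachable_iff_reflTransGen]
      exact Relation.ReflTransGen.mono (fun a b hab => hab.2.2) _ _ hy
    have h4 := Set.ncard_le_ncard h3 hfin
    have h5 : n < 2 ^ n := Nat.lt_two_pow_self
    rw [hE, Set.mem_ofPred_eq] at h2
    have hn' : s ≤ n := hn
    omega
  intro h0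
  have h6 := measure_mono (μ := P) hsub
  rw [h0] at h6
  have h7 := le_trans hge h6
  simp at h7

/-- Construction of the measure. -/
lemma exists_measure (Γ : Type*) [Group Γ] [Countable Γ] [Infinite Γ] :
    ∃ (μ : GeneratingMeasure Γ) (W : ℝ≥0), ∀ n : ℕ, ∀ b ∈ (scl n : Finset Γ),
      (1 / 2 : ℝ≥0∞) ^ n ≤ W * μ.mass b := by
  classical
  obtain ⟨ε, hε0, hεsum⟩ := ENNReal.exists_pos_sum_of_countable (ε := 1) one_ne_zero Γ
  -- one-sided weights
  set f : Γ → ℝ≥0∞ := fun g =>
    (∑' n : ℕ, if g ∈ (scl n : Finset Γ) then (1 / 2 : ℝ≥0∞) ^ n else 0) + ε g with hf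
  set w : Γ → ℝ≥0∞ := fun g => f g + f g⁻¹ with hw
  have hfsum : ∑' g, f g ≠ ⊤ := by
    rw [hf, ENNReal.tsum_add]
    apply ENNReal.add_ne_top.mpr ⟨?_, ?_⟩
    · rw [ENNReal.tsum_comm]
      have h1 : ∀ n : ℕ, (∑' g : Γ, if g ∈ (scl n : Finset Γ) then (1 / 2 : ℝ≥0∞) ^ n else 0)
          = ((4 * (n + 2) : ℕ) : ℝ≥0∞) * (1 / 2) ^ n := by
        intro n
        rw [tsum_eq_sum (s := (scl n : Finset Γ))]
        · rw [Finset.sum_congr rfl (fun g hg => if_pos hg), Finset.sum_const, nsmul_eq_mul]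
          congr 2
          exact gen_card _ _
        · intro g hg
          rw [if_neg hg]
      simp_rw [h1]
      have h2 : Summable (fun n : ℕ => (((4 * (n + 2) : ℕ) : ℝ≥0) * (1 / 2 : ℝ≥0) ^ n)) := by
        rw [← NNReal.summable_coe]
        push_cast
        have h3 : Summable (fun n : ℕ => (n : ℝ) ^ 1 * (1 / 2 : ℝ) ^ n) :=
          summable_pow_mul_geometric_of_norm_lt_one 1 (by norm_num)
        have h4 : Summable (fun n : ℕ => (1 / 2 : ℝ) ^ n) :=
          summable_geometric_of_lt_one (by norm_num) (by norm_num)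
        have h5 := (h3.mul_left 4).add (h4.mul_left 8)
        refine h5.congr fun n => ?_
        ring
      have h6 := ENNReal.tsum_coe_ne_top_iff_summable.mpr h2
      convert h6 using 3 with n
      push_cast
      congr 2
    · exact ne_top_of_lt hεsum
  have hwsum : ∑' g, w g ≠ ⊤ := by
    rw [hw, ENNReal.tsum_add]
    apply ENNReal.add_ne_top.mpr ⟨hfsum, ?_⟩
    have h7 : ∑' g : Γ, f g⁻¹ = ∑' g, f g := (Equiv.inv Γ).tsum_eq f
    rw [h7]
    exact hfsum
  have hwpos : ∀ g, w g ≠ 0 := by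
    intro g h
    have h1 : f g = 0 := by
      have := add_eq_zero.mp h
      exact this.1
    have h2 : (ε g : ℝ≥0∞) = 0 := (add_eq_zero.mp h1).2
    exact (hε0 g).ne' (by exact_mod_cast h2)
  have hwsum0 : ∑' g, w g ≠ 0 := by
    intro h
    exact hwpos 1 (ENNReal.tsum_eq_zero.mp h 1)
  refine ⟨⟨PMF.normalize w hwsum0 hwsum, ?_, ?_⟩, (∑' g, w g).toNNReal, ?_⟩
  · intro g
    rw [PMF.normalize_apply, PMF.normalize_apply]
    congr 1
    simp only [hw, inv_inv]
    rw [add_comm]
  · have : (PMF.normalize w hwsum0 hwsum).support = Set.univ := by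
      ext g
      simp only [Set.mem_univ, iff_true, PMF.mem_support_normalize_iff]
      exact hwpos g
    rw [this]
    exact Subgroup.closure_univ
  · intro n b hb
    show _ ≤ _ * PMF.normalize w hwsum0 hwsum b
    rw [PMF.normalize_apply, ENNReal.coe_toNNReal hwsum, mul_comm (w b), ← mul_assoc,
      ENNReal.mul_inv_cancel hwsum0 hwsum, one_mul]
    calc (1 / 2 : ℝ≥0∞) ^ n = if b ∈ (scl n : Finset Γ) then (1 / 2 : ℝ≥0∞) ^ n else 0 := by
          rw [if_pos hb]
      _ ≤ ∑' n : ℕ, if b ∈ (scl n : Finset Γ) then (1 / 2 : ℝ≥0∞) ^ n else 0 :=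
          ENNReal.le_tsum (f := fun n => if b ∈ (scl n : Finset Γ) then (1 / 2 : ℝ≥0∞) ^ n else 0) n
      _ ≤ f b := le_self_add
      _ ≤ w b := le_self_add

lemma scl_ne_one [Infinite Γ] {n : ℕ} {b : Γ} (hb : b ∈ (scl n : Finset Γ)) (x : Γ) :
    x ≠ x * b := by
  intro h
  have hb1 : b = 1 := by
    have := mul_left_cancel (a := x) (b := 1) (c := b) (by simpa using h)
    exact this.symm
  have h1 := gen_disj1 _ _ b hb
  rw [Set.disjoint_left] at h1
  apply h1 (one_mem_win n)
  exact ⟨1, one_mem_win n, 1, one_mem_win n, by simp [hb1]⟩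

/-- **Main theorem.** Every countably infinite group admits a generating measure whose long-range
percolation has a finite critical parameter. -/
theorem exists_lambdaC_lt_top (Γ : Type*) [Group Γ] [Countable Γ] [Infinite Γ] :
    ∃ μ : GeneratingMeasure Γ, lambdaC μ < ⊤ := by
  obtain ⟨μ, W, hW⟩ := exists_measure Γ
  refine ⟨μ, lt_of_le_of_lt (b := (W : ℝ≥0∞)) ?_ ENNReal.coe_lt_top⟩
  apply sSup_le
  rintro _ ⟨lam, _, hzero, rfl⟩
  by_contra hlt
  rw [not_le] at hlt
  have hWl : W ≤ lam := by exact_mod_cast hlt.le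
  refine perc_pos (fun e => poissonMeasure (lam * weight μ e.1)) ?_ hzero
  intro n b hb x
  have h1 := open_prob μ lam (scl_ne_one hb x)
  rw [percLaw] at h1
  rw [h1, inv_mul_cancel_left]
  have h2 : (1 / 2 : ℝ≥0) ^ n ≤ W * (μ.mass b).toNNReal := by
    have h3 := hW n b hb
    have h4 : μ.mass b ≠ ⊤ := PMF.apply_ne_top _ _
    rw [← ENNReal.coe_toNNReal h4] at h3
    have h5 : ((1 / 2 : ℝ≥0) ^ n : ℝ≥0∞) = (((1 / 2 : ℝ≥0) ^ n : ℝ≥0) : ℝ≥0∞) := by
      push_cast
      rfl
    have h6 : (1 / 2 : ℝ≥0∞) = ((1 / 2 : ℝ≥0) : ℝ≥0∞) := by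
      rw [ENNReal.coe_div (by norm_num)]
      simp
    rw [h6] at h3
    exact_mod_cast h3
  have h3 : ((1 / 2 : ℝ)) ^ n ≤ lam * (μ.mass b).toNNReal := by
    have h4 : (1 / 2 : ℝ≥0) ^ n ≤ lam * (μ.mass b).toNNReal :=
      h2.trans (mul_le_mul_left hWl _)
    have h5 : (((1 / 2 : ℝ≥0) ^ n : ℝ≥0) : ℝ) ≤ ((lam * (μ.mass b).toNNReal : ℝ≥0) : ℝ) := by
      exact_mod_cast h4
    push_cast at h5
    exact h5
  have h4 : Real.exp (-(lam * (μ.mass b).toNNReal)) ≤ Real.exp (-(1 / 2) ^ n) := by
    apply Real.exp_le_exp.mpr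
    linarith
  linarith

end final

end Pool.Agent.LongRange
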